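import Pool.Agent.Y431.SY.HT
import Pool.Agent.Y501.SY.StmV

/-! # The homotopy formula for the maps `p ↦ p + t χ(p) y` -/

set_option autoImplicit false

open Set Filter Topology MeasureTheory
open scoped ContDiff

noncomputable section

namespace Pool.Agent.Y689.SY

open Pool.Agent.Y501.SY ContinuousAlternatingMap Pool.Agent.Y431.SY

/-! ### Two-forms -/

section alt

variable {F : Type} [NormedAddCommGroup F] [NormedSpace ℝ F]

theorem f2_add (f : F [⋀^Fin 2]→L[ℝ] ℝ) (a b c : F) :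
    f ![a + b, c] = f ![a, c] + f ![b, c] := by
  have h := congrArg (fun g : F [⋀^Fin 1]→L[ℝ] ℝ => g ![c]) (f.curryLeft.map_add a b)
  exact h

theorem f2_smul (f : F [⋀^Fin 2]→L[ℝ] ℝ) (r : ℝ) (a c : F) :
    f ![r • a, c] = r * f ![a, c] := by
  have h := congrArg (fun g : F [⋀^Fin 1]→L[ℝ] ℝ => g ![c]) (f.curryLeft.map_smul r a)
  exact h

theorem f2_self (f : F [⋀^Fin 2]→L[ℝ] ℝ) (a : F) : f ![a, a] = 0 :=
  f.map_eq_zero_of_eq ![a, a] (i := 0) (j := 1) rfl (by decide)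

theorem f2_swap (f : F [⋀^Fin 2]→L[ℝ] ℝ) (a b : F) : f ![a, b] = -f ![b, a] := by
  have h := f.toAlternatingMap.map_swap ![b, a] (i := 0) (j := 1) (by decide)
  have e : (![b, a] : Fin 2 → F) ∘ Equiv.swap (0 : Fin 2) 1 = ![a, b] := by
    funext i
    fin_cases i <;> simp
  rw [e] at h
  exact h

theorem f2_add_r (f : F [⋀^Fin 2]→L[ℝ] ℝ) (a b c : F) :
    f ![c, a + b] = f ![c, a] + f ![c, b] := by
  rw [f2_swap f c (a + b), f2_add, f2_swap f c a, f2_swap f c b]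
  ring

theorem f2_smul_r (f : F [⋀^Fin 2]→L[ℝ] ℝ) (r : ℝ) (a c : F) :
    f ![c, r • a] = r * f ![c, a] := by
  rw [f2_swap f c (r • a), f2_smul, f2_swap f c a]
  ring

theorem f2_par (f : F [⋀^Fin 2]→L[ℝ] ℝ) (r t a : ℝ) (y v : F) :
    f ![r • y, v + t • a • y] = f ![r • y, v] := by
  have h : f ![r • y, t • a • y] = 0 := by
    rw [f2_smul_r, f2_smul_r, f2_smul, f2_self]
    ring
  rw [f2_add_r, h, add_zero]

end alt

/-! ### The integrand -/

variable {d : ℕ}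

/-- the integrand of the homotopy operator -/
def gg (s : E d → (E d) [⋀^Fin 2]→L[ℝ] ℝ) (χ : E d → ℝ) (y p : E d) : (E d) [⋀^Fin 1]→L[ℝ] ℝ :=
  G s (p, χ p • y)

/-- the derivative of the integrand -/
def Ph (s : E d → (E d) [⋀^Fin 2]→L[ℝ] ℝ) (χ : E d → ℝ) (y p u : E d) (w : E d) (t : ℝ) : ℝ :=
  s (p + t • χ p • y) ![fderiv ℝ χ p u • y, w] +
    fderiv ℝ s (p + t • χ p • y) (u + t • fderiv ℝ χ p u • y) ![χ p • y, w]

theorem gg_smooth {s : E d → (E d) [⋀^Fin 2]→L[ℝ] ℝ} (hs : ContDiff ℝ ∞ s) {χ : E d → ℝ}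
    (hχ : ContDiff ℝ ∞ χ) : ContDiff ℝ ∞ (fun q : E d × E d => gg s χ q.1 q.2) := by
  have h1 : ContDiff ℝ ∞ (fun q : E d × E d => χ q.2) := hχ.comp contDiff_snd
  have h2 : ContDiff ℝ ∞ (fun q : E d × E d => (q.2, χ q.2 • q.1)) := by fun_prop
  exact (G_smooth hs).comp h2

theorem R_smooth' {s : E d → (E d) [⋀^Fin 2]→L[ℝ] ℝ} (hs : ContDiff ℝ ∞ s) {χ : E d → ℝ}
    (hχ : ContDiff ℝ ∞ χ) (y : E d) (w : Fin 1 → E d) :
    ContDiff ℝ ∞ (fun z : E d × ℝ => s (z.1 + z.2 • χ z.1 • y)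
      (Matrix.vecCons (χ z.1 • y) w)) := by
  have h1 : ContDiff ℝ ∞ (fun z : E d × ℝ => χ z.1) := hχ.comp contDiff_fst
  have h2 : ContDiff ℝ ∞ (fun z : E d × ℝ => s (z.1 + z.2 • χ z.1 • y)) :=
    hs.comp (by fun_prop)
  have h3 : ContDiff ℝ ∞ (fun z : E d × ℝ => χ z.1 • y) := by fun_prop
  exact (ev w).contDiff.comp (curry_smooth h2 h3)

theorem R_deriv {s : E d → (E d) [⋀^Fin 2]→L[ℝ] ℝ} (hs : ContDiff ℝ ∞ s) {χ : E d → ℝ}
    (hχ : ContDiff ℝ ∞ χ) (y p u w : E d) (t : ℝ) :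
    fderiv ℝ (fun x => s (x + t • χ x • y) (Matrix.vecCons (χ x • y) ![w])) p u =
      Ph s χ y p u w t := by
  have hc : HasFDerivAt χ (fderiv ℝ χ p) p := ((hχ.differentiable (by simp)) p).hasFDerivAt
  have hc2 : HasFDerivAt (fun x => χ x • y) ((fderiv ℝ χ p).smulRight y) p := hc.smul_const y
  have hP : HasFDerivAt (fun x => x + t • χ x • y)
      (ContinuousLinearMap.id ℝ (E d) + t • (fderiv ℝ χ p).smulRight y) p :=
    (hasFDerivAt_id p).add (hc2.const_smul t)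
  have hs1 : HasFDerivAt s (fderiv ℝ s (p + t • χ p • y)) (p + t • χ p • y) :=
    ((hs.differentiable (by simp)) _).hasFDerivAt
  have hs2 : HasFDerivAt (fun x => s (x + t • χ x • y)) ((fderiv ℝ s (p + t • χ p • y)).comp
      (ContinuousLinearMap.id ℝ (E d) + t • (fderiv ℝ χ p).smulRight y)) p := hs1.comp p hP
  have hb := ((curry_bb (E := E d)).hasFDerivAt (s (p + t • χ p • y), χ p • y)).comp p
    (hs2.prodMk hc2)
  have he := (ev ![w]).hasFDerivAt.comp p hb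
  have h5 : fderiv ℝ (fun x => s (x + t • χ x • y) (Matrix.vecCons (χ x • y) ![w])) p = _ :=
    he.fderiv
  rw [h5]
  rfl

theorem fderiv_gg {s : E d → (E d) [⋀^Fin 2]→L[ℝ] ℝ} (hs : ContDiff ℝ ∞ s) {χ : E d → ℝ}
    (hχ : ContDiff ℝ ∞ χ) (y p u w : E d) :
    fderiv ℝ (fun x => gg s χ y x ![w]) p u = ∫ t in Icc (0 : ℝ) 1, Ph s χ y p u w t := by
  have hR := R_smooth' hs hχ y ![w]
  have h1 := setInt_hasFDerivAt' volume isCompact_Icc (K := Icc (0 : ℝ) 1) hR p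
  have e : (fun x => gg s χ y x ![w]) = fun x => ∫ t in Icc (0 : ℝ) 1,
      s (x + t • χ x • y) (Matrix.vecCons (χ x • y) ![w]) := by
    funext x; exact G_apply hs (x, χ x • y) ![w]
  rw [e, h1.fderiv, ContinuousLinearMap.integral_apply]
  · refine integral_congr_ae (Filter.Eventually.of_forall fun t => ?_)
    show ((fderiv ℝ _ (p, t)).comp (ContinuousLinearMap.inl ℝ (E d) ℝ)) u = _
    rw [← (fderiv_slice hR p t).fderiv]
    exact R_deriv hs hχ y p u w t
  · exact ((slice_contDiff hR).continuous.comp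
      (Continuous.prodMk_right p)).continuousOn.integrableOn_compact isCompact_Icc

theorem Ph_cont {s : E d → (E d) [⋀^Fin 2]→L[ℝ] ℝ} (hs : ContDiff ℝ ∞ s) (χ : E d → ℝ)
    (y p u w : E d) : Continuous (fun t => Ph s χ y p u w t) := by
  have h2 : ContDiff ℝ ∞ (fderiv ℝ s) := hs.fderiv_right (m := ∞) (by simp)
  have h3 : ContDiff ℝ ∞ (fun t : ℝ => fderiv ℝ s (p + t • χ p • y)
      (u + t • fderiv ℝ χ p u • y)) := by
    have h4 : ContDiff ℝ ∞ (fun t : ℝ => fderiv ℝ s (p + t • χ p • y)) := h2.comp (by fun_prop)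
    exact h4.clm_apply (by fun_prop)
  have h5 : ContDiff ℝ ∞ (fun t : ℝ => s (p + t • χ p • y)) := hs.comp (by fun_prop)
  exact ((ev ![fderiv ℝ χ p u • y, w]).contDiff.comp h5).continuous.add
    ((ev ![χ p • y, w]).contDiff.comp h3).continuous

/-- the function of `t` whose increments are computed -/
def Kf (s : E d → (E d) [⋀^Fin 2]→L[ℝ] ℝ) (χ : E d → ℝ) (y p v0 v1 : E d) (t : ℝ) : ℝ :=
  s (p + t • χ p • y) ![v0, v1] + t * (fderiv ℝ χ p v0 * s (p + t • χ p • y) ![y, v1] +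
    fderiv ℝ χ p v1 * s (p + t • χ p • y) ![v0, y])

theorem Ph_sub {s : E d → (E d) [⋀^Fin 2]→L[ℝ] ℝ} (hs : ContDiff ℝ ∞ s) (χ : E d → ℝ)
    (y p v0 v1 : E d) (t : ℝ) (hcl : extDeriv s (p + t • χ p • y) = 0) :
    HasDerivAt (Kf s χ y p v0 v1) (Ph s χ y p v0 v1 t - Ph s χ y p v1 v0 t) t := by
  set T := fderiv ℝ s (p + t • χ p • y) with hT
  set f := s (p + t • χ p • y) with hf
  set a0 := fderiv ℝ χ p v0 with ha0
  set a1 := fderiv ℝ χ p v1 with ha1
  have h7 : HasFDerivAt s T (p + t • χ p • y) := ((hs.differentiable (by simp)) _).hasFDerivAt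
  have h8 : HasDerivAt (fun t : ℝ => p + t • χ p • y) (χ p • y) t := by
    simpa using ((hasDerivAt_id t).smul_const (χ p • y)).const_add p
  have h9 : HasDerivAt (fun t : ℝ => s (p + t • χ p • y)) (T (χ p • y)) t :=
    h7.comp_hasDerivAt t h8
  have hev : ∀ v : Fin 2 → E d, HasDerivAt (fun t : ℝ => s (p + t • χ p • y) v)
      (T (χ p • y) v) t := fun v => (ev v).hasFDerivAt.comp_hasDerivAt t h9
  have hK : HasDerivAt (Kf s χ y p v0 v1) (T (χ p • y) ![v0, v1] +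
      (1 * (a0 * f ![y, v1] + a1 * f ![v0, y]) +
        t * (a0 * T (χ p • y) ![y, v1] + a1 * T (χ p • y) ![v0, y]))) t :=
    (hev ![v0, v1]).add ((hasDerivAt_id t).mul
      (((hev ![y, v1]).const_mul a0).add ((hev ![v0, y]).const_mul a1)))
  have hcl' : alternatizeUncurryFin T = 0 := hcl
  have hid := closed_identity T hcl' (χ p • y) ![v0 + t • a0 • y, v1 + t • a1 • y]
  have hid' : T (v0 + t • a0 • y) ![χ p • y, v1 + t • a1 • y] -
      T (v1 + t • a1 • y) ![χ p • y, v0 + t • a0 • y] =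
      T (χ p • y) ![v0 + t • a0 • y, v1 + t • a1 • y] := hid
  have e1 : T (v0 + t • a0 • y) ![χ p • y, v1 + t • a1 • y] =
      T (v0 + t • a0 • y) ![χ p • y, v1] := f2_par _ _ _ _ _ _
  have e2 : T (v1 + t • a1 • y) ![χ p • y, v0 + t • a0 • y] =
      T (v1 + t • a1 • y) ![χ p • y, v0] := f2_par _ _ _ _ _ _
  have e3 : T (χ p • y) ![v0 + t • a0 • y, v1 + t • a1 • y] = T (χ p • y) ![v0, v1] +
      t * (a0 * T (χ p • y) ![y, v1] + a1 * T (χ p • y) ![v0, y]) := by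
    rw [f2_add, f2_add_r, f2_add_r, f2_smul, f2_smul, f2_smul_r, f2_smul_r, f2_smul, f2_smul,
      f2_smul_r, f2_smul_r, f2_self]
    ring
  have e4 : Ph s χ y p v0 v1 t - Ph s χ y p v1 v0 t = T (χ p • y) ![v0, v1] +
      (1 * (a0 * f ![y, v1] + a1 * f ![v0, y]) +
        t * (a0 * T (χ p • y) ![y, v1] + a1 * T (χ p • y) ![v0, y])) := by
    unfold Ph
    rw [← hT, ← hf, ← ha0, ← ha1, f2_smul f a0 y v1, f2_smul f a1 y v0, f2_swap f v0 y]
    rw [e1, e2, e3] at hid'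
    linarith
  rw [e4]
  exact hK

theorem ext_gg {s : E d → (E d) [⋀^Fin 2]→L[ℝ] ℝ} (hs : ContDiff ℝ ∞ s) {χ : E d → ℝ}
    (hχ : ContDiff ℝ ∞ χ) (y p : E d)
    (hcl : ∀ t ∈ Icc (0 : ℝ) 1, extDeriv s (p + t • χ p • y) = 0) :
    extDeriv (gg s χ y) p = (s (p + χ p • y)).compContinuousLinearMap
      (ContinuousLinearMap.id ℝ (E d) + (fderiv ℝ χ p).smulRight y) - s p := by
  have hd : DifferentiableAt ℝ (gg s χ y) p := by
    have h1 : ContDiff ℝ ∞ (fun x : E d => (y, x)) := by fun_prop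
    exact ((gg_smooth hs hχ).comp h1).differentiable (by simp) p
  ext v
  rw [extDeriv_apply hd, Fin.sum_univ_two]
  have e0 : Fin.removeNth 0 v = ![v 1] := by
    funext i; fin_cases i; rfl
  have e1 : Fin.removeNth 1 v = ![v 0] := by
    funext i; fin_cases i; rfl
  rw [e0, e1, fderiv_gg hs hχ, fderiv_gg hs hχ]
  simp only [Fin.val_zero, pow_zero, one_smul, Fin.val_one, pow_one, neg_smul]
  rw [← sub_eq_add_neg, ← integral_sub
    ((Ph_cont hs χ y p (v 0) (v 1)).continuousOn.integrableOn_compact isCompact_Icc)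
    ((Ph_cont hs χ y p (v 1) (v 0)).continuousOn.integrableOn_compact isCompact_Icc)]
  rw [integral_Icc_eq_integral_Ioc, ← intervalIntegral.integral_of_le zero_le_one]
  rw [intervalIntegral.integral_eq_sub_of_hasDerivAt (f := Kf s χ y p (v 0) (v 1))
    (fun t ht => Ph_sub hs χ y p (v 0) (v 1) t (hcl t (by
      rwa [Set.uIcc_of_le zero_le_one] at ht)))
    (((Ph_cont hs χ y p (v 0) (v 1)).sub (Ph_cont hs χ y p (v 1) (v 0))).intervalIntegrable _ _)]
  have e2 : (((s (p + χ p • y)).compContinuousLinearMap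
      (ContinuousLinearMap.id ℝ (E d) + (fderiv ℝ χ p).smulRight y) - s p :
        (E d) [⋀^Fin 2]→L[ℝ] ℝ)) v =
      s (p + χ p • y) ![v 0 + fderiv ℝ χ p (v 0) • y, v 1 + fderiv ℝ χ p (v 1) • y] -
        s p ![v 0, v 1] := by
    have f1 : (![v 0, v 1] : Fin 2 → E d) = v := by
      funext i; fin_cases i <;> rfl
    rw [f1]
    have f2 : ((s (p + χ p • y)).compContinuousLinearMap
        (ContinuousLinearMap.id ℝ (E d) + (fderiv ℝ χ p).smulRight y)) v =
        s (p + χ p • y) ![v 0 + fderiv ℝ χ p (v 0) • y, v 1 + fderiv ℝ χ p (v 1) • y] := by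
      rw [compContinuousLinearMap_apply]
      congr 1
      funext i; fin_cases i <;> rfl
    rw [← f2]
    rfl
  rw [e2]
  unfold Kf
  rw [one_smul, zero_smul, add_zero, f2_add, f2_add_r, f2_add_r, f2_smul, f2_smul, f2_smul_r,
    f2_smul_r, f2_self]
  ring

/-! ### Assembly -/

open Pool.Agent.Y515.SY (Al LL JJ)

/-- one-forms as linear functionals -/
def evL1 : (E d) [⋀^Fin 1]→L[ℝ] ℝ →ₗ[ℝ] (E d →ₗ[ℝ] ℝ) where
  toFun f :=
    { toFun := fun v => f ![v]
      map_add' := fun a b =>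
        congrArg (fun g : (E d) [⋀^Fin 0]→L[ℝ] ℝ => g ![]) (f.curryLeft.map_add a b)
      map_smul' := fun r a =>
        congrArg (fun g : (E d) [⋀^Fin 0]→L[ℝ] ℝ => g ![]) (f.curryLeft.map_smul r a) }
  map_add' _ _ := rfl
  map_smul' _ _ := rfl

theorem evL1_inj : Function.Injective (evL1 (d := d)) := by
  intro f g h
  ext v
  have h1 := congrArg (fun φ : E d →ₗ[ℝ] ℝ => φ (v 0)) h
  have e : (![v 0] : Fin 1 → E d) = v := by
    funext i
    fin_cases i
    rfl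
  have h2 : f ![v 0] = g ![v 0] := h1
  rwa [e] at h2

instance finAl1 : FiniteDimensional ℝ ((E d) [⋀^Fin 1]→L[ℝ] ℝ) :=
  FiniteDimensional.of_injective evL1 evL1_inj

theorem gen_int {W Z : Type} [NormedAddCommGroup W] [NormedSpace ℝ W] [CompleteSpace W]
    [NormedAddCommGroup Z] [NormedSpace ℝ Z] [CompleteSpace Z] {g : E d → E d → W}
    (hg : ContDiff ℝ ∞ (Function.uncurry g)) {ρ : E d → ℝ} (hρ : Continuous ρ)
    (hc : HasCompactSupport ρ) (p₀ : E d) (A : (E d →L[ℝ] W) →L[ℝ] Z) :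
    Integrable (fun y => A (ρ y • fderiv ℝ (g y) p₀)) ∧
      ∫ y, A (ρ y • fderiv ℝ (g y) p₀) = A (∫ y, ρ y • fderiv ℝ (g y) p₀) := by
  have h4 : ContDiff ℝ ∞ (fun y => fderiv ℝ (g y) p₀) :=
    ContDiff.fderiv (f := g) (m := ∞) (n := ∞) hg contDiff_const (by simp)
  have hint : Integrable (fun y => ρ y • fderiv ℝ (g y) p₀) :=
    (hρ.smul h4.continuous).integrable_of_hasCompactSupport hc.smul_right
  exact ⟨A.integrable_comp hint, A.integral_comp_comm hint⟩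

theorem t_HH : S_HH := by
  intro hSM d V χ ρ s ε hV hχ hχ0 _ hε hρ hs hcl hseg
  have hρy : ∀ y, ρ y ≠ 0 → ‖y‖ < ε := fun y hy => by
    by_contra h
    exact hy (hρ.supp y (not_lt.mp h))
  have hρi : Integrable ρ := integrable_of_integral_eq_one hρ.int
  have hρc : HasCompactSupport ρ :=
    HasCompactSupport.intro (isCompact_closedBall (0 : E d) ε) fun y hy => by
      apply hρ.supp
      rw [mem_closedBall_zero_iff, not_le] at hy
      exact hy.le
  have key : ∀ p₀ ∈ V, ∃ s' : E d → (E d) [⋀^Fin 2]→L[ℝ] ℝ, ContDiff ℝ ∞ s' ∧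
      (∀ᶠ p in 𝓝 p₀, ∀ y, ρ y ≠ 0 → ∀ t ∈ Icc (0 : ℝ) 1,
        s' (p + t • χ p • y) = s (p + t • χ p • y)) ∧
      (∀ y, ρ y ≠ 0 → ∀ t ∈ Icc (0 : ℝ) 1, extDeriv s' (p₀ + t • χ p₀ • y) = 0) ∧
      s' p₀ = s p₀ := by
    intro p₀ hp₀
    obtain ⟨ε', hε', hle, hsub⟩ : ∃ ε' : ℝ, 0 < ε' ∧ ε * χ p₀ ≤ ε' ∧
        Metric.closedBall p₀ ε' ⊆ V := by
      rcases (hχ0 p₀).eq_or_lt with h0 | h0
      · obtain ⟨δ, hδ, hball⟩ := Metric.isOpen_iff.mp hV p₀ hp₀
        refine ⟨δ / 2, by positivity, ?_, ?_⟩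
        · rw [← h0, mul_zero]
          positivity
        · exact (Metric.closedBall_subset_ball (by linarith)).trans hball
      · refine ⟨ε * χ p₀, by positivity, le_rfl, ?_⟩
        intro q hq
        rw [Metric.mem_closedBall, dist_eq_norm] at hq
        have h1 : ‖(χ p₀)⁻¹ • (q - p₀)‖ ≤ ε := by
          rw [norm_smul, norm_inv, Real.norm_eq_abs, abs_of_pos h0, inv_mul_le_iff₀ h0]
          linarith
        have h2 := hseg p₀ hp₀ ((χ p₀)⁻¹ • (q - p₀)) h1 1 zero_le_one le_rfl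
        rw [one_mul, smul_smul, mul_inv_cancel₀ h0.ne', one_smul, add_sub_cancel] at h2
        exact h2
    obtain ⟨r, s', hr, hs', hball, heq⟩ := exists_ext hV hs hε' hsub
    have hev : ∀ᶠ p in 𝓝 p₀, ∀ y, ρ y ≠ 0 → ∀ t ∈ Icc (0 : ℝ) 1,
        p + t • χ p • y ∈ Metric.ball p₀ (ε' + r) := by
      have hc : Continuous (fun p => ε * χ p) := continuous_const.mul hχ.continuous
      have h1 : ∀ᶠ p in 𝓝 p₀, ε * χ p < ε' + r / 2 :=
        (hc.tendsto p₀).eventually (gt_mem_nhds (by linarith))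
      filter_upwards [h1, Metric.ball_mem_nhds p₀ (half_pos hr)] with p hp1 hp2 y hy t ht
      rw [Metric.mem_ball, dist_eq_norm] at hp2 ⊢
      have h3 : ‖t • χ p • y‖ ≤ ε * χ p := by
        rw [norm_smul, norm_smul, Real.norm_eq_abs, Real.norm_eq_abs, abs_of_nonneg ht.1,
          abs_of_nonneg (hχ0 p)]
        have h4 := hρy y hy
        have h5 : χ p * ‖y‖ ≤ χ p * ε := mul_le_mul_of_nonneg_left h4.le (hχ0 p)
        have h6 : 0 ≤ χ p * ‖y‖ := mul_nonneg (hχ0 p) (norm_nonneg y)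
        nlinarith [ht.2]
      calc ‖p + t • χ p • y - p₀‖ = ‖(p - p₀) + t • χ p • y‖ := by
            rw [add_sub_right_comm]
        _ ≤ ‖p - p₀‖ + ‖t • χ p • y‖ := norm_add_le _ _
        _ < ε' + r := by linarith
    refine ⟨s', hs', ?_, ?_, ?_⟩
    · filter_upwards [hev] with p hp y hy t ht
      exact heq _ (hp y hy t ht)
    · intro y hy t ht
      have h1 := hev.self_of_nhds y hy t ht
      have h2 : s' =ᶠ[𝓝 (p₀ + t • χ p₀ • y)] s := by
        filter_upwards [Metric.isOpen_ball.mem_nhds h1] with q hq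
        exact heq q hq
      have h3 : extDeriv s' (p₀ + t • χ p₀ • y) = extDeriv s (p₀ + t • χ p₀ • y) := by
        unfold extDeriv
        rw [h2.fderiv_eq]
      rw [h3]
      exact hcl _ (hball h1)
    · exact heq _ (Metric.mem_ball_self (by linarith))
  have hh : ∀ p₀ ∈ V, ∀ s' : E d → (E d) [⋀^Fin 2]→L[ℝ] ℝ,
      (∀ᶠ p in 𝓝 p₀, ∀ y, ρ y ≠ 0 → ∀ t ∈ Icc (0 : ℝ) 1,
        s' (p + t • χ p • y) = s (p + t • χ p • y)) →
      (fun p => ∫ y, ρ y • gg s χ y p) =ᶠ[𝓝 p₀] (fun p => ∫ y, ρ y • gg s' χ y p) := by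
    intro p₀ _ s' h
    filter_upwards [h] with p hp
    refine integral_congr_ae (Filter.Eventually.of_forall fun y => ?_)
    show ρ y • _ = ρ y • _
    by_cases hy : ρ y = 0
    · rw [hy, zero_smul, zero_smul]
    · congr 1
      unfold gg G
      refine setIntegral_congr_fun measurableSet_Icc fun t ht => ?_
      show (s (p + t • χ p • y)).curryLeft (χ p • y) =
        (s' (p + t • χ p • y)).curryLeft (χ p • y)
      rw [hp y hy t ht]
  have hsm : ∀ (s' : E d → (E d) [⋀^Fin 2]→L[ℝ] ℝ), ContDiff ℝ ∞ s' → ∀ p₀ : E d,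
      ContDiffAt ℝ ∞ (fun p => ∫ y, ρ y • gg s' χ y p) p₀ ∧
      HasFDerivAt (fun p => ∫ y, ρ y • gg s' χ y p)
        (∫ y, ρ y • fderiv ℝ (fun p => gg s' χ y p) p₀) p₀ := by
    intro s' hs' p₀
    exact hSM d ((E d) [⋀^Fin 1]→L[ℝ] ℝ) ρ (fun q => gg s' χ q.1 q.2) p₀ ε univ
      hρ.smooth.continuous hρ.supp isOpen_univ (gg_smooth hs' hχ).contDiffOn
      (fun y _ => mem_univ _)
  refine ⟨fun p => ∫ y, ρ y • gg s χ y p, ?_, ?_, ?_⟩
  · intro p₀ hp₀
    obtain ⟨s', hs', h1, _, _⟩ := key p₀ hp₀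
    exact ((hsm s' hs' p₀).1.congr_of_eventuallyEq (hh p₀ hp₀ s' h1)).contDiffWithinAt
  · intro p hp
    have h1 : ∀ y, gg s χ y p = 0 := by
      intro y
      unfold gg G
      have h2 : ∀ t : ℝ, (s ((p, χ p • y).1 + t • (p, χ p • y).2)).curryLeft (p, χ p • y).2 =
          0 := by
        intro t
        have h3 : ((p, χ p • y) : E d × E d).2 = 0 := by
          show χ p • y = 0
          rw [hp, zero_smul]
        rw [h3, _root_.map_zero]
      simp only [h2, integral_zero]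
    simp only [h1, smul_zero, integral_zero]
  · intro p₀ hp₀
    obtain ⟨s', hs', h1, h2, h3⟩ := key p₀ hp₀
    have h1s := h1.self_of_nhds
    have hd := (hsm s' hs' p₀).2
    set A := alternatizeUncurryFinCLM ℝ (E d) ℝ (n := 1) with hA
    obtain ⟨hAint, hAeq⟩ := gen_int (g := gg s' χ) (gg_smooth hs' hχ) hρ.smooth.continuous hρc
      p₀ A
    have hAy : ∀ y, A (ρ y • fderiv ℝ (fun p => gg s' χ y p) p₀) + ρ y • s p₀ =
        ρ y • (s (p₀ + χ p₀ • y)).compContinuousLinearMap (LL (fderiv ℝ χ p₀) y) := by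
      intro y
      by_cases hy : ρ y = 0
      · rw [_root_.map_smul, hy, zero_smul, zero_smul, zero_smul, add_zero]
      · have h5 : A (fderiv ℝ (fun p => gg s' χ y p) p₀) = extDeriv (gg s' χ y) p₀ := rfl
        have h6 := ext_gg hs' hχ y p₀ (h2 y hy)
        have h7 : s' (p₀ + χ p₀ • y) = s (p₀ + χ p₀ • y) := by
          have h8 := h1s y hy 1 ⟨zero_le_one, le_rfl⟩
          rwa [one_smul] at h8
        rw [_root_.map_smul, h5, h6, h7, h3, ← smul_add, sub_add_cancel]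
        rfl
    have h9 : extDeriv (fun p => ∫ y, ρ y • gg s χ y p) p₀ =
        ∫ y, A (ρ y • fderiv ℝ (fun p => gg s' χ y p) p₀) := by
      have h10 : fderiv ℝ (fun p => ∫ y, ρ y • gg s χ y p) p₀ =
          ∫ y, ρ y • fderiv ℝ (fun p => gg s' χ y p) p₀ := by
        rw [(hh p₀ hp₀ s' h1).fderiv_eq, hd.fderiv]
      rw [hAeq, ← h10]
      rfl
    have h11 : JJ ρ χ s p₀ = (∫ y, A (ρ y • fderiv ℝ (fun p => gg s' χ y p) p₀)) + s p₀ := by
      unfold JJ
      rw [← integral_congr_ae (Filter.Eventually.of_forall hAy),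
        integral_add hAint (hρi.smul_const _), integral_smul_const, hρ.int, one_smul]
    rw [h9, h11, add_sub_cancel_right]

end Pool.Agent.Y689.SY
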